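import Pool.Agent.W2helper23.SG.Stm

/-!
# Project SG (helper23), piece SG9: the induction step for `Form`
-/

set_option autoImplicit false
set_option linter.unusedSectionVars false

namespace Pool.Agent.W2helper56.SG

open NumberField NumberField.ComplexEmbedding Pool.Agent.R389 Pool.Agent.K4H74.ST
open Pool.Agent.W2helper23.SG

lemma char_cj {G : Type} [Group G] {χ : G → ℂ} (h : IsChar χ) (g x : G) :
    χ (x⁻¹ * g * x) = χ g := by
  obtain ⟨V, _, _, _, ρ, rfl⟩ := h
  have h1 := Representation.char_conj ρ g x⁻¹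
  rwa [inv_inv] at h1

lemma zpow_sum' {M : Type} [CommGroup M] {ι : Type} (s : Finset ι) (f : ι → ℤ) (g : M) :
    g ^ (∑ i ∈ s, f i) = ∏ i ∈ s, g ^ f i := by
  classical
  induction s using Finset.induction_on with
  | empty => simp
  | insert a s ha ih => rw [Finset.sum_insert ha, Finset.prod_insert ha, zpow_add, ih]

/-- **SG9** -/
theorem SG9 (hSG6 : P_SG6) : P_SG9 := by
  classical
  intro M _ B F E N _ _ _ _ _ _ _ _ _ _ _ _ s t hQ G G' hOK χ hF
  have hfin : FiniteDimensional F N := Module.Finite.of_restrictScalars_finite ℚ F N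
  obtain ⟨ι, hι, hind⟩ := hSG6 F E N s t hQ
  obtain ⟨m, e, hval, hV⟩ := hF
  obtain ⟨hs, ht, hker⟩ := hQ
  obtain ⟨hG', hb1⟩ := hOK
  have hNegReal : ∀ κ : F →+* ℂ, Neg s κ → IsReal κ := by
    rintro κ ⟨φ, c, hc, rfl, _⟩
    exact hc.isReal_comp
  have hlReal : ∀ l : E →+* ℂ, IsReal l → IsReal (l.comp (algebraMap F E)) := by
    intro l hl
    rw [isReal_iff] at hl ⊢
    ext x
    exact RingHom.congr_fun hl (algebraMap F E x)
  have he0 : ∀ κ : F →+* ℂ, ¬ IsReal κ → (if Neg s κ then -m else 0) +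
      ∑ l : E →+* ℂ, (if IsReal l ∧ l.comp (algebraMap F E) = κ then e l else 0) = 0 := by
    intro κ hκ
    rw [if_neg (fun h => hκ (hNegReal κ h)), zero_add]
    refine Finset.sum_eq_zero fun l _ => if_neg ?_
    rintro ⟨h1, rfl⟩
    exact hκ (hlReal l h1)
  -- `χ` is a class function
  have hcl : ∀ g x : N ≃ₐ[E] N, χ (x⁻¹ * g * x) = χ g := by
    obtain ⟨a, b, ha, hb, hab, _⟩ := hV
    intro g x
    rw [hab, Pi.sub_apply, Pi.sub_apply, char_cj ha, char_cj hb]
  -- the value of the induced function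
  have hVal : Val B F N (indChar F E N χ)
      (b1 B E ^ m * ∏ l : E →+* ℂ, if IsReal l then G' l ^ e l else 1) := by
    have hch : ∀ a : (N ≃ₐ[E] N) → ℂ, IsChar a → IsChar (indChar F E N a) := by
      intro a ha
      rw [hind a]
      exact Pool.Agent.K4H74.SC.isChar_ind _ (ha.comp ι.toMonoidHom)
    obtain ⟨a, b, ha, hb, hab, hv⟩ := hV
    refine ⟨indChar F E N a, indChar F E N b, hch a ha, hch b hb, ?_, ?_⟩
    · rw [hind, hind, hind, ← ind_sub, hab]
      rfl
    · rw [B.val_ind F E N a ha, B.val_ind F E N b hb]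
      exact hv
  have hprod : b1 B E ^ m * (∏ l : E →+* ℂ, if IsReal l then G' l ^ e l else 1) =
      b1 B F ^ (2 * m) * ∏ κ : F →+* ℂ, if IsReal κ then
        G κ ^ ((if Neg s κ then -m else 0) +
          ∑ l : E →+* ℂ, (if IsReal l ∧ l.comp (algebraMap F E) = κ then e l else 0)) else 1 := by
    have p1 : (∏ κ : F →+* ℂ, if IsReal κ then
        G κ ^ ((if Neg s κ then -m else 0) +
          ∑ l : E →+* ℂ, (if IsReal l ∧ l.comp (algebraMap F E) = κ then e l else 0)) else 1) =
        ∏ κ : F →+* ℂ, G κ ^ ((if Neg s κ then -m else 0) +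
          ∑ l : E →+* ℂ, (if IsReal l ∧ l.comp (algebraMap F E) = κ then e l else 0)) := by
      refine Finset.prod_congr rfl fun κ _ => ?_
      by_cases h : IsReal κ
      · rw [if_pos h]
      · rw [if_neg h, he0 κ h, zpow_zero]
    have p2 : (∏ κ : F →+* ℂ, G κ ^ (if Neg s κ then -m else 0)) =
        (∏ κ : F →+* ℂ, if Neg s κ then (G κ)⁻¹ else 1) ^ m := by
      rw [← Finset.prod_zpow]
      refine Finset.prod_congr rfl fun κ _ => ?_
      by_cases h : Neg s κ
      · rw [if_pos h, if_pos h, inv_zpow, zpow_neg]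
      · rw [if_neg h, if_neg h, zpow_zero, one_zpow]
    have p3 : (∏ κ : F →+* ℂ, G κ ^
        (∑ l : E →+* ℂ, (if IsReal l ∧ l.comp (algebraMap F E) = κ then e l else 0))) =
        ∏ l : E →+* ℂ, if IsReal l then G' l ^ e l else 1 := by
      simp only [zpow_sum']
      rw [Finset.prod_comm]
      refine Finset.prod_congr rfl fun l _ => ?_
      by_cases hl : IsReal l
      · rw [if_pos hl, Finset.prod_eq_single (l.comp (algebraMap F E))]
        · rw [if_pos ⟨hl, rfl⟩, hG' l hl]
        · intro κ _ hκ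
          rw [if_neg (fun h => hκ h.2.symm), zpow_zero]
        · intro h
          exact absurd (Finset.mem_univ _) h
      · rw [if_neg hl]
        refine Finset.prod_eq_one fun κ _ => ?_
        rw [if_neg (fun h => hl h.1), zpow_zero]
    rw [p1]
    simp only [zpow_add]
    rw [Finset.prod_mul_distrib, p2, p3, hb1, mul_zpow, ← mul_assoc]
    congr 2
    rw [← zpow_natCast, ← zpow_mul]
    norm_num
  rw [hprod] at hVal
  refine ⟨2 * m, fun κ => (if Neg s κ then -m else 0) +
    ∑ l : E →+* ℂ, (if IsReal l ∧ l.comp (algebraMap F E) = κ then e l else 0), ?_, hVal⟩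
  -- the values at the complex conjugations
  intro φ c hc
  -- the induced function
  have hcj : ∀ g : N ≃ₐ[F] N, g ∈ s.ker → t⁻¹ * g * t ∈ s.ker := by
    intro g hg
    rw [MonoidHom.mem_ker] at hg ⊢
    rw [map_mul, map_mul, map_inv, hg, mul_one, inv_mul_cancel]
  have key1 : ∀ h : c ∈ s.ker, indChar F E N χ c =
      χ (ι ⟨c, h⟩) + χ (ι ⟨t⁻¹ * c * t, hcj c h⟩) := by
    intro h
    rw [hind]
    let f : (N ≃ₐ[F] N) → ℂ := fun g => if h : g ∈ s.ker then χ (ι ⟨g, h⟩) else 0
    have hf0 : ∀ (g : N ≃ₐ[F] N) (hg : g ∈ s.ker), f g = χ (ι ⟨g, hg⟩) := fun g hg => dif_pos hg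
    have hf : (fun h : s.ker => χ (ι h)) = fun h : s.ker => f h := by
      funext h
      rw [hf0 _ h.2]
    rw [hf, ind_two hs ht f, if_pos (MonoidHom.mem_ker.1 h), hf0 _ h, hf0 _ (hcj c h)]
    intro g x hg hx
    have hg' : g ∈ s.ker := MonoidHom.mem_ker.2 hg
    have hx' : x ∈ s.ker := MonoidHom.mem_ker.2 hx
    have h' : x⁻¹ * g * x ∈ s.ker := mul_mem (mul_mem (inv_mem hx') hg') hx'
    rw [hf0 _ h', hf0 _ hg']
    have h2 : (⟨x⁻¹ * g * x, h'⟩ : s.ker) = (⟨x, hx'⟩ : s.ker)⁻¹ * ⟨g, hg'⟩ * ⟨x, hx'⟩ := by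
      apply Subtype.ext
      rfl
    rw [h2, map_mul, map_mul, map_inv, hcl]
  have key2 : c ∉ s.ker → indChar F E N χ c = 0 := by
    intro h
    rw [hind]
    let f : (N ≃ₐ[F] N) → ℂ := fun g => if h : g ∈ s.ker then χ (ι ⟨g, h⟩) else 0
    have hf0 : ∀ (g : N ≃ₐ[F] N) (hg : g ∈ s.ker), f g = χ (ι ⟨g, hg⟩) := fun g hg => dif_pos hg
    have hf : (fun h : s.ker => χ (ι h)) = fun h : s.ker => f h := by
      funext h
      rw [hf0 _ h.2]
    rw [hf, ind_two hs ht f, if_neg (fun h' => h (MonoidHom.mem_ker.2 h'))]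
    intro g x hg hx
    have hg' : g ∈ s.ker := MonoidHom.mem_ker.2 hg
    have hx' : x ∈ s.ker := MonoidHom.mem_ker.2 hx
    have h' : x⁻¹ * g * x ∈ s.ker := mul_mem (mul_mem (inv_mem hx') hg') hx'
    rw [hf0 _ h', hf0 _ hg']
    have h2 : (⟨x⁻¹ * g * x, h'⟩ : s.ker) = (⟨x, hx'⟩ : s.ker)⁻¹ * ⟨g, hg'⟩ * ⟨x, hx'⟩ := by
      apply Subtype.ext
      rfl
    rw [h2, map_mul, map_mul, map_inv, hcl]
  -- automorphisms over `E`
  have hιφ : ∀ (φ' : N →+* ℂ) (g : s.ker), IsConj φ' (g : N ≃ₐ[F] N) → IsConj φ' (ι g) := by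
    intro φ' g hg
    rw [← hι g] at hg
    exact hg
  by_cases h : s c = 1
  · have hk : c ∈ s.ker := MonoidHom.mem_ker.2 h
    rw [key1 hk]
    have hc1 : IsConj φ (ι ⟨c, hk⟩) := hιφ φ _ hc
    have h' := hcj c hk
    have hct : IsConj (φ.comp ((t : N ≃ₐ[F] N) : N →+* N)) (t⁻¹ * c * t) := hc.comp t
    have hc2 : IsConj (φ.comp ((t : N ≃ₐ[F] N) : N →+* N)) (ι ⟨t⁻¹ * c * t, h'⟩) := hιφ _ _ hct
    rw [hval φ _ hc1, hval _ _ hc2]
    have hneg : ¬ Neg s (φ.comp (algebraMap F N)) := by
      rintro ⟨φ', c', hc', hφ', hsc'⟩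
      have h3 := conj_same s hc hc' hφ'.symm
      rw [h, hsc'] at h3
      exact neg_one_ne h3.symm
    -- the two embeddings of `E`
    have hne : φ.comp (algebraMap E N) ≠
        (φ.comp ((t : N ≃ₐ[F] N) : N →+* N)).comp (algebraMap E N) := by
      intro h3
      have h4 : ∀ x : E, t (algebraMap E N x) = algebraMap E N x := by
        intro x
        have h5 := RingHom.congr_fun h3 x
        exact (φ.injective h5).symm
      have h5 : s t = 1 := by
        rw [hker]
        exact ⟨AlgEquiv.ofRingEquiv (f := (t : N ≃+* N)) h4, by ext x; rfl⟩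
      rw [ht] at h5
      exact neg_one_ne h5
    have hr1 : IsReal (φ.comp (algebraMap E N)) := hc1.isReal_comp
    have hr2 : IsReal ((φ.comp ((t : N ≃ₐ[F] N) : N →+* N)).comp (algebraMap E N)) :=
      hc2.isReal_comp
    have hF1 : (φ.comp (algebraMap E N)).comp (algebraMap F E) = φ.comp (algebraMap F N) := by
      ext x
      show φ (algebraMap E N (algebraMap F E x)) = φ (algebraMap F N x)
      rw [← IsScalarTower.algebraMap_apply F E N]
    have hF2 : ((φ.comp ((t : N ≃ₐ[F] N) : N →+* N)).comp (algebraMap E N)).comp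
        (algebraMap F E) = φ.comp (algebraMap F N) := by
      ext x
      show φ (t (algebraMap E N (algebraMap F E x))) = φ (algebraMap F N x)
      rw [← IsScalarTower.algebraMap_apply F E N, t.commutes]
    have hall : ∀ l : E →+* ℂ, l.comp (algebraMap F E) = φ.comp (algebraMap F N) →
        l = φ.comp (algebraMap E N) ∨
        l = (φ.comp ((t : N ≃ₐ[F] N) : N →+* N)).comp (algebraMap E N) := by
      intro l hl
      let ψ : N →+* ℂ := ComplexEmbedding.lift N l
      have hψ : ψ.comp (algebraMap E N) = l := ComplexEmbedding.lift_comp_algebraMap N l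
      have hψF : φ.comp (algebraMap F N) = ψ.comp (algebraMap F N) := by
        rw [← hl, ← hψ]
        ext x
        show ψ (algebraMap E N (algebraMap F E x)) = ψ (algebraMap F N x)
        rw [← IsScalarTower.algebraMap_apply F E N]
      obtain ⟨σ, hσ⟩ := ComplexEmbedding.exists_comp_symm_eq_of_comp_eq (k := F) φ ψ hψF
      have hψσ : ∀ x, ψ x = φ (σ.symm x) := fun x => (RingHom.congr_fun hσ x).symm
      rcases hs σ.symm with h3 | h3
      · left
        obtain ⟨k, hk⟩ := (hker _).1 h3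
        rw [← hψ]
        ext x
        show ψ (algebraMap E N x) = φ (algebraMap E N x)
        rw [hψσ, ← hk]
        show φ (k (algebraMap E N x)) = _
        rw [k.commutes]
      · right
        have h4 : s (t⁻¹ * σ.symm) = 1 := by
          rw [map_mul, map_inv, ht, h3]; simp
        obtain ⟨k, hk⟩ := (hker _).1 h4
        rw [← hψ]
        ext x
        show ψ (algebraMap E N x) = φ (t (algebraMap E N x))
        have h5 : σ.symm = t * (k.restrictScalars F) := by rw [hk]; group
        rw [hψσ, h5]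
        show φ (t (k (algebraMap E N x))) = _
        rw [k.commutes]
    have hsum : ∑ l : E →+* ℂ, (if IsReal l ∧ l.comp (algebraMap F E) = φ.comp (algebraMap F N)
        then e l else 0) = e (φ.comp (algebraMap E N)) +
          e ((φ.comp ((t : N ≃ₐ[F] N) : N →+* N)).comp (algebraMap E N)) := by
      rw [← Finset.sum_pair hne, ← Finset.sum_filter]
      refine Finset.sum_congr ?_ fun _ _ => rfl
      ext l
      simp only [Finset.mem_filter, Finset.mem_univ, true_and, Finset.mem_insert,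
        Finset.mem_singleton]
      constructor
      · rintro ⟨_, h4⟩
        exact hall l h4
      · rintro (rfl | rfl)
        · exact ⟨hr1, hF1⟩
        · exact ⟨hr2, hF2⟩
    beta_reduce
    rw [if_neg hneg, hsum]
    push_cast
    ring
  · rw [key2 (fun h' => h (MonoidHom.mem_ker.1 h'))]
    have h1 : s c = -1 := (hs c).resolve_left h
    have hneg : Neg s (φ.comp (algebraMap F N)) := ⟨φ, c, hc, rfl, h1⟩
    have hsum : ∑ l : E →+* ℂ, (if IsReal l ∧ l.comp (algebraMap F E) = φ.comp (algebraMap F N)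
        then e l else 0) = 0 := by
      refine Finset.sum_eq_zero fun l _ => if_neg ?_
      rintro ⟨hl, hlF⟩
      let ψ : N →+* ℂ := ComplexEmbedding.lift N l
      have hψ : ψ.comp (algebraMap E N) = l := ComplexEmbedding.lift_comp_algebraMap N l
      obtain ⟨c', hc'⟩ := exists_conj (K := E) (φ := ψ) (by rw [hψ]; exact hl)
      have hc'' : IsConj ψ (c'.restrictScalars F) := hc'
      have h3 : s (c'.restrictScalars F) = 1 := (hker _).2 ⟨c', rfl⟩
      have h4 := conj_same s hc hc'' (by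
        rw [← hlF, ← hψ]
        ext x
        show ψ (algebraMap E N (algebraMap F E x)) = ψ (algebraMap F N x)
        rw [← IsScalarTower.algebraMap_apply F E N])
      exact h (h4.trans h3)
    beta_reduce
    rw [if_pos hneg, hsum]
    push_cast
    ring

end Pool.Agent.W2helper56.SG
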