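import Pool.Agent.W2helper37.SG.Stm

/-!
# Project SG, piece EQN: the case of equal dimensions
-/

set_option autoImplicit false
set_option linter.unusedSectionVars false
set_option linter.unusedSimpArgs false
set_option backward.isDefEq.respectTransparency false
set_option backward.defeqAttrib.useBackward true

open CategoryTheory Limits MonoidalCategory
open Pool.Agent.Y112.SR Pool.Agent.Y112.KD Pool.Agent.Y112.SC
open Pool.Agent.W2helper37.SG

namespace Pool.Agent.W2helper56.SG

universe v u w

section Lin

variable {K : Type w} [Field K] {V : Type w} [AddCommGroup V] [Module K V] [Module.Finite K V]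

/-- The trace form is nondegenerate. -/
lemma eq_of_trace (g g' : Module.End K V)
    (h : ∀ d : Module.End K V, LinearMap.trace K V (g * d) = LinearMap.trace K V (g' * d)) :
    g = g' := by
  rw [← sub_eq_zero]
  have h' : ∀ d : Module.End K V, LinearMap.trace K V ((g - g') * d) = 0 := by
    intro d
    rw [sub_mul, map_sub, h d, sub_self]
  ext x
  rw [LinearMap.zero_apply]
  rw [← Module.forall_dual_apply_eq_zero_iff K]
  intro φ
  have h1 := h' (LinearMap.smulRight φ x)
  have h2 : (g - g') * (LinearMap.smulRight φ x) = LinearMap.smulRight φ ((g - g') x) := by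
    ext y
    simp
  rw [h2, LinearMap.trace_smulRight] at h1
  exact h1

/-- An idempotent of trace `1` has rank one. -/
lemma rank_one [CharZero K] (p : Module.End K V) (hp : IsIdempotentElem p)
    (ht : LinearMap.trace K V p = 1) (g : Module.End K V) :
    ∃ l : K, p * g * p = l • p := by
  have h2 := (LinearMap.IsIdempotentElem.isProj_range _ hp).trace
  rw [ht] at h2
  have h3 : Module.finrank K (LinearMap.range p) = 1 := by
    have : ((Module.finrank K (LinearMap.range p) : ℕ) : K) = ((1 : ℕ) : K) := by
      rw [← h2, Nat.cast_one]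
    exact_mod_cast this
  obtain ⟨v, -, hv⟩ := finrank_eq_one_iff'.mp h3
  have hv' : ∀ x : V, ∃ c : K, c • (v : V) = p x := by
    intro x
    obtain ⟨c, hc⟩ := hv ⟨p x, LinearMap.mem_range_self p x⟩
    exact ⟨c, congrArg Subtype.val hc⟩
  obtain ⟨l, hl⟩ := hv' (g (v : V))
  refine ⟨l, ?_⟩
  ext x
  obtain ⟨c, hc⟩ := hv' x
  rw [Module.End.mul_apply, Module.End.mul_apply, LinearMap.smul_apply, ← hc, map_smul, map_smul,
    ← hl, smul_smul, smul_smul, mul_comm]

end Lin

section Cat

variable {C : Type u} [Category.{v} C] [Preadditive C] [Linear ℚ C] [MonoidalCategory C]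
  [MonoidalPreadditive C] [MonoidalLinear ℚ C] [SymmetricCategory C]
  [RightRigidCategory C] {K : Type w} [Field K] (R : SuperRealisation C K)

/-- Cyclicity of the partial trace for even operators on the last factor. -/
lemma PT_cyc {X Y : C} (b : R.H.obj Y ⟶ R.H.obj Y) (hb : b ≫ R.par Y = R.par Y ≫ b)
    (x : R.H.obj (X ⊗ Y) ⟶ R.H.obj (X ⊗ Y)) :
    PT R (bx R (𝟙 _) b ≫ x) = PT R (x ≫ bx R (𝟙 _) b) := by
  have hpar : bx R (𝟙 _) b ≫ R.par (X ⊗ Y) = R.par (X ⊗ Y) ≫ bx R (𝟙 _) b := by
    rw [← bx_par, bx_comp, bx_comp, hb, Category.id_comp, Category.comp_id]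
  have key : PT R (bx R (𝟙 _) b ≫ x) ≫ R.par X = PT R (x ≫ bx R (𝟙 _) b) ≫ R.par X := by
    apply ModuleCat.hom_ext
    have h0 := R.finite X
    apply eq_of_trace
    intro d
    have e1 : ∀ z : R.H.obj X ⟶ R.H.obj X, (z.hom : Module.End K (R.H.obj X)) * d =
        (ModuleCat.ofHom d ≫ z).hom := fun z => rfl
    rw [e1, e1, trace_PT, trace_PT]
    have e2 : bx R (ModuleCat.ofHom d) (𝟙 _) ≫ (bx R (𝟙 _) b ≫ x) ≫ R.par (X ⊗ Y) =
        bx R (𝟙 _) b ≫ (bx R (ModuleCat.ofHom d) (𝟙 _) ≫ x ≫ R.par (X ⊗ Y)) := by
      rw [Category.assoc, ← Category.assoc, ← Category.assoc (bx R (𝟙 _) b), bx_comp, bx_comp,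
        Category.id_comp, Category.comp_id, Category.id_comp, Category.comp_id]
    rw [e2, trace_swap]
    simp only [Category.assoc, hpar]
  have h3 := congrArg (fun z => z ≫ R.par X) key
  simpa only [Category.assoc, R.par_sq, Category.comp_id] using h3

lemma PT_right {Q X : C} (a : R.H.obj Q ⟶ R.H.obj Q)
    (x : R.H.obj (Q ⊗ X) ⟶ R.H.obj (Q ⊗ X)) :
    PT R (x ≫ bx R a (𝟙 _)) = PT R x ≫ a := by
  have := PT_comp R (𝟙 _) a x
  rwa [bx_one, Category.id_comp, Category.id_comp] at this

/-- An operator which commutes with the even matrix units. -/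
lemma diag_of_comm {X : C} {ι : Type} [Fintype ι] [DecidableEq ι] {o : ι → Bool}
    {e : ι → ι → (R.H.obj X ⟶ R.H.obj X)} (hU : Units R X o e)
    (g : R.H.obj X ⟶ R.H.obj X) (hg : ∀ k i, o k = o i → e k i ≫ g = g ≫ e k i) :
    ∃ l : ι → K, g = ∑ i, l i • e i i ∧ ∀ k i, o k = o i → l k = l i := by
  have hK := R_charZero R
  have h0 := R.finite X
  have h1 : ∀ i, ∃ l : K, e i i ≫ g ≫ e i i = l • e i i := by
    intro i
    have hid : IsIdempotentElem (e i i).hom := by
      have := hU.mul i i i i
      rw [if_pos rfl] at this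
      exact congrArg ModuleCat.Hom.hom this
    have ht := hU.tr i i
    rw [if_pos rfl] at ht
    obtain ⟨l, hl⟩ := rank_one (e i i).hom hid ht g.hom
    exact ⟨l, ModuleCat.hom_ext (by
      rw [ModuleCat.hom_smul, ← hl]
      rfl)⟩
  choose l hl using h1
  have h2 : ∀ i, g ≫ e i i = l i • e i i := by
    intro i
    rw [← hl i, ← Category.assoc, hg i i rfl, Category.assoc, hU.mul, if_pos rfl]
  have h3 : g = ∑ i, l i • e i i := by
    calc g = g ≫ ∑ i, e i i := by rw [hU.sum, Category.comp_id]
      _ = ∑ i, l i • e i i := by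
        rw [Preadditive.comp_sum]
        exact Finset.sum_congr rfl fun i _ => h2 i
  refine ⟨l, h3, fun k i hki => ?_⟩
  have h4 : e k i ≫ g = l i • e k i := by
    have : e k i = e k i ≫ e i i := by rw [hU.mul, if_pos rfl]
    conv_lhs => rw [this, Category.assoc, hg i i rfl, h2 i]
    rw [Linear.comp_smul, hU.mul, if_pos rfl]
  have h5 : g ≫ e k i = l k • e k i := by
    have : e k i = e k k ≫ e k i := by rw [hU.mul, if_pos rfl]
    conv_lhs => rw [this, ← Category.assoc, h2 k]
    rw [Linear.smul_comp, hU.mul, if_pos rfl]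
  have h6 : l k • e k i = l i • e k i := by rw [← h4, ← h5, hg k i hki]
  have h7 : l k • e k k = l i • e k k := by
    have := congrArg (fun z => z ≫ e i k) h6
    simpa only [Linear.smul_comp, hU.mul, if_true] using this
  have h8 := congrArg (fun z => LinearMap.trace K (R.H.obj X) z.hom) h7
  simpa only [ModuleCat.hom_smul, map_smul, hU.tr, if_true, smul_eq_mul, mul_one] using h8

end Cat

theorem p_eqn : P_EQN.{v, u, w} := by
  intro hRat C _ _ _ _ _ _ _ _ K _ R X Y ι _ _ o e hU hQ hn hC A B hA hB t ht
  have hK := R_charZero R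
  have h2 : (2 : K) ≠ 0 := two_ne_zero
  have h0 := R.finite X
  set F := R.H.map t with hF
  -- the partial trace commutes with the even matrix units
  have hcomm : ∀ k i, o k = o i → e k i ≫ PT R F = PT R F ≫ e k i := by
    intro k i hki
    obtain ⟨k', i', c, hk', hc⟩ := hA k i hki
    have h3 := ht k' i' hk'
    rw [tenA, if_pos hk'] at h3
    set a : R.H.obj X ⟶ R.H.obj X := ModuleCat.ofHom (A k' i') with ha
    set b : R.H.obj Y ⟶ R.H.obj Y := ModuleCat.ofHom (B k' i') with hb
    have hb' : b ≫ R.par Y = R.par Y ≫ b := by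
      apply ModuleCat.hom_ext
      have h4 := hB k' i'
      have h5 : sg K (o k') * sg K (o i') = 1 := by
        rw [hk', sg]
        split_ifs <;> ring
      rw [h5, one_smul] at h4
      exact h4
    have h4 : (bx R a (𝟙 _) + bx R (𝟙 _) b) ≫ F = F ≫ (bx R a (𝟙 _) + bx R (𝟙 _) b) := by
      apply ModuleCat.hom_ext
      exact h3
    rw [Preadditive.add_comp, Preadditive.comp_add] at h4
    have h5 := congrArg (PT R) h4
    rw [PT_add, PT_add, PT_left, PT_right, PT_cyc R b hb'] at h5
    have h6 : a ≫ PT R F = PT R F ≫ a := by simpa using h5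
    have h7 : e k i = c • a := ModuleCat.hom_ext hc
    rw [h7, Linear.smul_comp, Linear.comp_smul, h6]
  obtain ⟨l, hl, hl'⟩ := diag_of_comm R hU (PT R F) hcomm
  have htr : LinearMap.trace K _ (F ≫ R.par (X ⊗ Y)).hom = ∑ i, l i * sg K (o i) := by
    have h3 := trace_PT R (𝟙 (R.H.obj X)) F
    rw [bx_one, Category.id_comp, Category.id_comp] at h3
    rw [← h3, hl, hU.par, Preadditive.sum_comp]
    have h4 : ∀ i, (l i • e i i) ≫ ∑ j, sg K (o j) • e j j = (l i * sg K (o i)) • e i i := by
      intro i
      rw [Linear.smul_comp, Preadditive.comp_sum, Finset.sum_eq_single i]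
      · rw [Linear.comp_smul, hU.mul, if_pos rfl, smul_smul]
      · intro j _ hj
        rw [Linear.comp_smul, hU.mul, if_neg (Ne.symm hj), smul_zero]
      · intro h
        exact absurd (Finset.mem_univ i) h
    rw [Finset.sum_congr rfl fun i _ => h4 i, ModuleCat.hom_sum, map_sum]
    refine Finset.sum_congr rfl fun i _ => ?_
    rw [ModuleCat.hom_smul, map_smul, hU.tr, if_pos rfl, smul_eq_mul, mul_one]
  rw [htr]
  have hsplit : ∑ i, l i * sg K (o i) =
      ∑ i with o i = false, l i - ∑ i with o i = true, l i := by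
    rw [← Finset.sum_filter_add_sum_filter_not Finset.univ (fun i => o i = false)]
    have e1 : ∑ i with o i = false, l i * sg K (o i) = ∑ i with o i = false, l i :=
      Finset.sum_congr rfl fun i hi => by
        rw [(Finset.mem_filter.mp hi).2, sg]
        simp
    have e2 : ∑ i with ¬ o i = false, l i * sg K (o i) = -∑ i with o i = true, l i := by
      rw [← Finset.sum_neg_distrib]
      have e3 : (Finset.univ.filter fun i => ¬ o i = false) =
          Finset.univ.filter fun i => o i = true := by
        ext i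
        simp
      rw [e3]
      exact Finset.sum_congr rfl fun i hi => by
        rw [(Finset.mem_filter.mp hi).2, sg]
        simp
    rw [e1, e2, sub_eq_add_neg]
  rw [hsplit]
  by_cases hz : num o false = 0
  · have hz' : num o true = 0 := by rw [← hn, hz]
    rw [num, Finset.card_eq_zero] at hz hz'
    rw [hz, hz', Finset.sum_empty, sub_zero]
  · have hz' : num o true ≠ 0 := by rwa [← hn]
    obtain ⟨i0, hi0⟩ := Finset.card_ne_zero.mp hz
    obtain ⟨i1, hi1⟩ := Finset.card_ne_zero.mp hz'
    have hi0' := (Finset.mem_filter.mp hi0).2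
    have hi1' := (Finset.mem_filter.mp hi1).2
    have s0 : ∑ i with o i = false, l i = (num o false : K) * l i0 := by
      rw [Finset.sum_congr rfl (fun i hi => hl' i i0
        (((Finset.mem_filter.mp hi).2).trans hi0'.symm)), Finset.sum_const, nsmul_eq_mul, num]
    have s1 : ∑ i with o i = true, l i = (num o true : K) * l i1 := by
      rw [Finset.sum_congr rfl (fun i hi => hl' i i1
        (((Finset.mem_filter.mp hi).2).trans hi1'.symm)), Finset.sum_const, nsmul_eq_mul, num]
    rw [s0, s1, hn]
    have heq : l i0 = l i1 := by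
      by_contra hne
      apply hC
      refine hRat C K R X hQ (ptr t) ((l i0 + l i1) / 2) ((l i0 - l i1) / 2) ?_ ?_
      · rw [← PT_map, ← hF, hl, ← hU.sum, hU.par, Finset.smul_sum, Finset.smul_sum,
          ← Finset.sum_add_distrib]
        refine Finset.sum_congr rfl fun i _ => ?_
        rw [smul_smul, ← add_smul]
        congr 1
        cases h : o i
        · rw [hl' i i0 (h.trans hi0'.symm), sg]
          simp only [Bool.false_eq_true, if_false]
          field_simp
          ring
        · rw [hl' i i1 (h.trans hi1'.symm), sg]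
          simp only [if_true]
          field_simp
          ring
      · exact div_ne_zero (sub_ne_zero.mpr hne) h2
    rw [heq, sub_self]

end Pool.Agent.W2helper56.SG
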